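import Pool.Agent.Helper93.KS.St

/-!
# Project KS, module CEL: logarithmic sums
-/

set_option autoImplicit false

noncomputable section

namespace Pool.Agent.Helper95.KS

open Finset Filter Topology Pool.Agent.Helper93.KS
open Pool.Agent.Helper15.AB (ee Kl StDB StMT)
open Pool.Agent.Helper9.TW (gm Qs fm StMER StC9)
open Pool.Agent.Helper18.TR (StLevel)
open Pool.Agent.Helper93.KP (gk vk tk rn gn TK qk StC8P StVLP StRTS StWEI)

private lemma gm_sum (a b : ℕ) (ha : 1 ≤ a) (hab : a ≤ b) :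
    ∑ j ∈ Ico a b, gm j = Real.log ((b : ℝ) / a) := by
  induction b, hab using Nat.le_induction with
  | base =>
    have : (a : ℝ) ≠ 0 := by positivity
    simp [div_self this]
  | succ n hn ih =>
    rw [Finset.sum_Ico_succ_top hn, ih]
    have ha' : (0 : ℝ) < a := by exact_mod_cast (lt_of_lt_of_le Nat.zero_lt_one ha)
    have hn' : (0 : ℝ) < n := by exact_mod_cast (lt_of_lt_of_le Nat.zero_lt_one (le_trans ha hn))
    unfold gm
    rw [← Real.log_mul (by positivity) (by positivity)]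
    congr 1
    push_cast
    field_simp

private lemma gm_lower (j : ℕ) (hj : 1 ≤ j) : 1 / ((j : ℝ) + 1) ≤ gm j := by
  have hj' : (0 : ℝ) < j := by exact_mod_cast hj
  unfold gm
  have h := Real.one_sub_inv_le_log_of_pos (show (0 : ℝ) < ((j : ℝ) + 1) / j by positivity)
  have e : 1 - (((j : ℝ) + 1) / j)⁻¹ = 1 / ((j : ℝ) + 1) := by
    field_simp
    ring
  linarith [h, e.symm.le]

private lemma log_upper (x : ℝ) (hx : 1 ≤ x) : Real.log x ≤ (x - 1 / x) / 2 := by
  have hx0 : 0 < x := by linarith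
  have hs : 0 ≤ Real.log x := Real.log_nonneg hx
  have h := Real.self_le_sinh_iff.mpr hs
  rw [Real.sinh_eq, Real.exp_log hx0, Real.exp_neg, Real.exp_log hx0] at h
  simpa [one_div] using h

theorem hCEL : StCEL := by
  intro j1 j2 J h1 h12 h2J ε hε
  have hj1 : (0 : ℝ) < j1 := by exact_mod_cast h1
  have hj12 : (j1 : ℝ) ≤ j2 := by exact_mod_cast h12
  have hj2 : (0 : ℝ) < j2 := lt_of_lt_of_le hj1 hj12
  have hJ : (0 : ℝ) < J := lt_of_lt_of_le hj2 (by exact_mod_cast h2J)
  set Lg : ℝ := Real.log ((j2 : ℝ) / j1) with hLg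
  have hLg0 : 0 ≤ Lg := Real.log_nonneg (by rw [le_div_iff₀ hj1]; linarith)
  refine ⟨⌈Lg / (J * ε)⌉₊, ?_⟩
  intro u hu hu1
  have hu0 : (0 : ℝ) < u := by exact_mod_cast hu1
  have hle : j1 * u ≤ j2 * u := Nat.mul_le_mul_right u h12
  have h1u : 1 ≤ j1 * u := Nat.mul_pos h1 hu1
  have hS : ∑ j ∈ Ico (j1 * u) (j2 * u), gm j = Lg := by
    rw [gm_sum _ _ h1u hle, hLg]
    congr 1
    push_cast
    field_simp
  have hterm : ∀ j ∈ Ico (j1 * u) (j2 * u),
      gm j * (1 - (j : ℝ) / (J * u)) ≤ gm j - (1 - gm j) / (J * u) := by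
    intro j hj
    have hj0 : 1 ≤ j := le_trans h1u (Finset.mem_Ico.mp hj).1
    have hjr : (0 : ℝ) < j := by exact_mod_cast hj0
    have hg := gm_lower j hj0
    have hgj : 1 - gm j ≤ gm j * j := by
      have h3 : (1 : ℝ) ≤ gm j * ((j : ℝ) + 1) := by
        have := mul_le_mul_of_nonneg_right hg (show (0 : ℝ) ≤ (j : ℝ) + 1 by positivity)
        rwa [one_div, inv_mul_cancel₀ (by positivity)] at this
      nlinarith
    have hd : (1 - gm j) / ((J : ℝ) * u) ≤ gm j * j / (J * u) :=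
      div_le_div_of_nonneg_right hgj (by positivity)
    have e : gm j * (1 - (j : ℝ) / (J * u)) = gm j - gm j * j / (J * u) := by ring
    rw [e]
    linarith
  have hsum := Finset.sum_le_sum hterm
  have hR : ∑ j ∈ Ico (j1 * u) (j2 * u), (gm j - (1 - gm j) / ((J : ℝ) * u)) =
      Lg - ((j2 : ℝ) - j1) / J + Lg / (J * u) := by
    rw [Finset.sum_sub_distrib, ← Finset.sum_div, Finset.sum_sub_distrib, hS]
    simp only [Finset.sum_const, Nat.card_Ico, nsmul_eq_mul, mul_one]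
    rw [Nat.cast_sub hle]
    push_cast
    field_simp
    ring
  have hlog : Lg ≤ ((j2 : ℝ) ^ 2 - (j1 : ℝ) ^ 2) / (2 * j1 * j2) := by
    have h := log_upper ((j2 : ℝ) / j1) (by rw [le_div_iff₀ hj1]; linarith)
    have e : ((j2 : ℝ) / j1 - 1 / ((j2 : ℝ) / j1)) / 2 =
        ((j2 : ℝ) ^ 2 - (j1 : ℝ) ^ 2) / (2 * j1 * j2) := by
      field_simp
    rw [← e]
    exact h
  have hlast : Lg / (J * u) ≤ ε := by
    have hu' : Lg / (J * ε) ≤ u := le_trans (Nat.le_ceil _) (by exact_mod_cast hu)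
    rw [div_le_iff₀ (by positivity)] at hu' ⊢
    nlinarith
  rw [hR] at hsum
  linarith

end Pool.Agent.Helper95.KS
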